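import Pool.Agent.W4.VC.Stms

/-!
# VC-RES
-/

set_option autoImplicit false

namespace Pool.Agent.W290.VC

open Finset Polynomial Pool.Agent.W4.CF Pool.Agent.W4.VC

/-- clearing denominators -/
lemma clear (u : ℚ[X]) : ∃ (b : ℤ) (U : ℤ[X]), b ≠ 0 ∧
    U.map (Int.castRingHom ℚ) = C (b : ℚ) * u := by
  obtain ⟨b, hb0, hb⟩ := IsLocalization.integerNormalization_spec (nonZeroDivisors ℤ) u
  refine ⟨b, IsLocalization.integerNormalization (nonZeroDivisors ℤ) u,
    nonZeroDivisors.ne_zero hb0, ?_⟩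
  have e : (Int.castRingHom ℚ) = algebraMap ℤ ℚ := rfl
  rw [e, hb, ← smul_eq_C_mul]
  ext j
  simp [coeff_smul]

/-- the form modulo a prime not dividing `b` -/
lemma hom_mod (p : ℕ) [Fact p.Prime] (f : ℤ[X]) (n : ℕ) (hf : f.natDegree ≤ n) (a b : ℤ)
    (hb : (b : ZMod p) ≠ 0) :
    ((hom f n a b : ℤ) : ZMod p)
      = (b : ZMod p) ^ n * (f.map (Int.castRingHom (ZMod p))).eval ((a : ZMod p) / b) := by
  rw [eval_eq_sum_range' (n := n + 1) (lt_of_le_of_lt natDegree_map_le (by omega)), mul_sum]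
  unfold hom
  push_cast
  refine sum_congr rfl fun j hj => ?_
  rw [mem_range] at hj
  rw [coeff_map, div_pow]
  have h1 : (b : ZMod p) ^ n = (b : ZMod p) ^ (n - j) * (b : ZMod p) ^ j := by
    rw [← pow_add]; congr 1; omega
  rw [h1]
  have h2 : (b : ZMod p) ^ j ≠ 0 := pow_ne_zero _ hb
  simp only [eq_intCast]
  field_simp

/-- the form modulo a prime dividing `b` -/
lemma hom_mod0 (p : ℕ) [Fact p.Prime] (f : ℤ[X]) (n : ℕ) (a b : ℤ) (hb : (b : ZMod p) = 0) :
    ((hom f n a b : ℤ) : ZMod p) = (f.coeff n : ZMod p) * (a : ZMod p) ^ n := by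
  unfold hom
  push_cast
  rw [sum_range_succ, hb, Nat.sub_self, pow_zero, mul_one]
  rw [sum_eq_zero, zero_add]
  intro j hj
  rw [mem_range] at hj
  rw [zero_pow (by omega), mul_zero]

theorem t_RES : S_RES := by
  intro f g n m hf hg h
  obtain ⟨hsq, hd1, hd2⟩ := h
  have hfg0 : f * g ≠ 0 := by
    rintro h0
    rw [h0, Polynomial.map_zero] at hsq
    exact not_squarefree_zero hsq
  have hf0 : f ≠ 0 := left_ne_zero_of_mul hfg0
  have hg0 : g ≠ 0 := right_ne_zero_of_mul hfg0
  rw [natDegree_mul hf0 hg0] at hd1 hd2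
  rw [Polynomial.map_mul, squarefree_mul_iff] at hsq
  obtain ⟨hrel, hsf, hsg⟩ := hsq
  refine ⟨⟨hsf, hf, by omega⟩, ⟨hsg, hg, by omega⟩, ?_⟩
  obtain ⟨u, w, huw⟩ := hrel.isCoprime
  obtain ⟨bu, U, hbu, hU⟩ := clear u
  obtain ⟨bw, W, hbw, hW⟩ := clear w
  have hD : (C bw * U) * f + (C bu * W) * g = C (bu * bw) := by
    apply Polynomial.map_injective (Int.castRingHom ℚ) Int.cast_injective
    simp only [Polynomial.map_add, Polynomial.map_mul, Polynomial.map_C, Int.coe_castRingHom,
      hU, hW, Int.cast_mul, C_mul]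
    linear_combination (C (bu : ℚ)) * (C (bw : ℚ)) * huw
  refine ⟨(bu * bw).natAbs * ((if f.coeff n = 0 then 1 else f.coeff n).natAbs *
    (if g.coeff m = 0 then 1 else g.coeff m).natAbs), ?_, ?_⟩
  · refine Nat.one_le_iff_ne_zero.mpr (mul_ne_zero ?_ (mul_ne_zero ?_ ?_))
    · exact Int.natAbs_ne_zero.mpr (mul_ne_zero hbu hbw)
    · split_ifs with h0
      · simp
      · exact Int.natAbs_ne_zero.mpr h0
    · split_ifs with h0
      · simp
      · exact Int.natAbs_ne_zero.mpr h0
  · intro a b hab p hp h1 h2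
    have : Fact p.Prime := ⟨hp⟩
    rw [← ZMod.intCast_zmod_eq_zero_iff_dvd] at h1 h2
    by_cases hb : (b : ZMod p) = 0
    · have ha : (a : ZMod p) ≠ 0 := by
        intro ha
        obtain ⟨x, y, hxy⟩ := hab
        have := congrArg (fun z : ℤ => (z : ZMod p)) hxy
        simp only [Int.cast_add, Int.cast_mul, ha, hb, mul_zero, add_zero, Int.cast_one] at this
        exact zero_ne_one this
      rw [hom_mod0 p f n a b hb] at h1
      rw [hom_mod0 p g m a b hb] at h2
      have h1' := (mul_eq_zero.mp h1).resolve_right (pow_ne_zero _ ha)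
      have h2' := (mul_eq_zero.mp h2).resolve_right (pow_ne_zero _ ha)
      rw [ZMod.intCast_zmod_eq_zero_iff_dvd] at h1' h2'
      refine Dvd.dvd.mul_left ?_ _
      by_cases hfn : f.coeff n = 0
      · have hdf : f.natDegree ≠ n := by
          intro e
          rw [← e] at hfn
          exact hf0 (leadingCoeff_eq_zero.mp hfn)
        have hdg : g.natDegree = m := by omega
        have hgm : g.coeff m ≠ 0 := by
          rw [← hdg]
          exact fun e => hg0 (leadingCoeff_eq_zero.mp e)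
        rw [if_neg hgm]
        exact Dvd.dvd.mul_left (Int.natCast_dvd.mp h2') _
      · rw [if_neg hfn]
        exact Dvd.dvd.mul_right (Int.natCast_dvd.mp h1') _
    · rw [hom_mod p f n hf a b hb] at h1
      rw [hom_mod p g m hg a b hb] at h2
      have h1' := (mul_eq_zero.mp h1).resolve_left (pow_ne_zero _ hb)
      have h2' := (mul_eq_zero.mp h2).resolve_left (pow_ne_zero _ hb)
      have h3 := congrArg (fun P : ℤ[X] =>
        (P.map (Int.castRingHom (ZMod p))).eval ((a : ZMod p) / b)) hD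
      simp only [Polynomial.map_add, Polynomial.map_mul, eval_add, eval_mul, h1', h2', mul_zero,
        add_zero, Polynomial.map_C, eval_C, Int.coe_castRingHom] at h3
      refine Dvd.dvd.mul_right ?_ _
      rw [← Int.natCast_dvd, ← ZMod.intCast_zmod_eq_zero_iff_dvd]
      exact h3.symm

end Pool.Agent.W290.VC
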